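import Pool.Graph.R_pool_sql_team_39128cda.Results.MP_c5669f_al.Yes

/-!
# In positive characteristic every integral Poisson algebra is rationally unimodular,
and its modular derivation is a log-ozone derivation
-/

namespace Pool.Agent.Results.MP_c5669f_al.PoissonDomains

open Module Submodule Matrix TrivSqZeroExt
open Pool.Agent.Results.MP_c5669f_al.Yes (dual sap ddet vol)

universe u v

/-- A Poisson bracket on a commutative `k`-algebra `A`. -/
structure IsPoisson {k : Type u} {A : Type v} [Field k] [CommRing A] [Algebra k A]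
    (br : A →ₗ[k] A →ₗ[k] A) : Prop where
  alt : ∀ a, br a a = 0
  jacobi : ∀ a b c, br a (br b c) + br b (br c a) + br c (br a b) = 0
  leibniz : ∀ a b c, br a (b * c) = br a b * c + b * br a c

/-- The Hamiltonian derivation `H_g = {g, -}`. -/
def ham {k : Type u} {A : Type v} [Field k] [CommRing A] [Algebra k A]
    {br : A →ₗ[k] A →ₗ[k] A} (h : IsPoisson br) (g : A) : Derivation k A A :=
  Derivation.mk' (br g) fun a b => by simp [h.leibniz, mul_comm, add_comm]

/-- The modular derivation with respect to a basis `D` of the `A`-module `Der_k(A)` (that is, with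
respect to the volume form dual to `D`): `φ(g) = ∑ i, c_{ii}` where `[H_g, D_i] = ∑ j, c_{ij} D_j`.
For `A = k[x_1, ..., x_n]` and `D_i = ∂ / ∂ x_i` this is `φ(g) = ∑ i, ∂_i {x_i, g}`. -/
noncomputable def modular {k : Type u} {A : Type v} [Field k] [CommRing A] [Algebra k A]
    {br : A →ₗ[k] A →ₗ[k] A} (h : IsPoisson br) {n : ℕ}
    (D : Basis (Fin n) A (Derivation k A A)) (g : A) : A :=
  ∑ i, D.repr ⁅ham h g, D i⁆ i

theorem sap_A {k : Type u} {A : Type v} [Field k] [CommRing A] [Algebra k A] {n : ℕ}
    (v : Fin n → Derivation k A A) (x : A) : (∑ i, v i) x = ∑ i, v i x := by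
  have : ∀ s : Finset (Fin n), (∑ i ∈ s, v i) x = ∑ i ∈ s, v i x := by
    classical
    intro s
    induction s using Finset.induction_on with
    | empty => simp
    | insert a s h ih => simp [h, ih]
  exact this _

/-- `Ω` is Poisson normal (`Ω ≠ 0` and `{a, Ω} ∈ Ω A` for all `a`) and `δ = δ_Ω` is its log-ozone
derivation: `{a, Ω} = δ(a) Ω`. -/
def IsLogOzone {k : Type u} {A : Type v} [Field k] [CommRing A] [Algebra k A]
    (br : A →ₗ[k] A →ₗ[k] A) (δ : A → A) (Ω : A) : Prop :=
  Ω ≠ 0 ∧ (∀ a, Ω ∣ br a Ω) ∧ ∀ a, br a Ω = δ a * Ω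

/-- The log-ozone group: the additive group generated by all `δ_Ω`, `Ω` Poisson normal. -/
def loz {k : Type u} {A : Type v} [Field k] [CommRing A] [Algebra k A]
    (br : A →ₗ[k] A →ₗ[k] A) : AddSubgroup (A → A) :=
  AddSubgroup.closure {δ | ∃ Ω, IsLogOzone br δ Ω}

section
variable {k : Type u} {A : Type v} [Field k] [CommRing A] [IsDomain A] [Algebra k A]

/-- derivations of `A` extend to the field of fractions -/
theorem extend (d : Derivation k A A) :
    ∃ D : Derivation k (FractionRing A) (FractionRing A),
      ∀ a, D (algebraMap A (FractionRing A) a) = algebraMap A (FractionRing A) (d a) := by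
  let K := FractionRing A
  let ι := algebraMap A K
  let φ := dual (K := K) ((Algebra.linearMap A K).compDer d)
  let ψ : K →+* DualNumber K := IsLocalization.lift (M := nonZeroDivisors A) (g := φ) fun y =>
    isUnit_iff_isUnit_fst.2 (by simpa [φ, dual] using IsLocalization.map_units K y)
  have p1 : ∀ a, ψ (ι a) = φ a := IsLocalization.lift_eq _
  have p2 : ∀ x, (ψ x).fst = x := fun x => RingHom.congr_fun (IsLocalization.ringHom_ext
    (nonZeroDivisors A) (j := (fstHom K K K).toRingHom.comp ψ) (k := RingHom.id K)
    (RingHom.ext fun a => by simp [ι, ← p1, show ψ (algebraMap A K a) = _ from p1 a, φ, dual])) x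
  have p3 : ∀ a, (ψ (ι a)).snd = ι (d a) := fun a => by simp [p1, φ, dual, ι]
  have p4 : ∀ x y, (ψ (x * y)).snd = x * (ψ y).snd + y * (ψ x).snd := fun x y => by
    simp [p2, mul_comm]
  refine ⟨.mk' ⟨⟨fun x => (ψ x).snd, by simp⟩, fun c x => ?_⟩ p4, p3⟩
  have p5 : (ψ (algebraMap k K c)).snd = 0 := by
    rw [IsScalarTower.algebraMap_apply k A K c, show (algebraMap A K (algebraMap k A c))
      = ι (algebraMap k A c) from rfl, p3, d.map_algebraMap, map_zero]
  change (ψ (c • x)).snd = c • (ψ x).snd
  rw [Algebra.smul_def, Algebra.smul_def, p4]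
  change _ + x * (ψ (algebraMap k K c)).snd = _
  rw [p5, mul_zero, add_zero]

/-- derivations of the field of fractions are determined by their values on `A` -/
theorem ext_frac (v : Derivation k (FractionRing A) (FractionRing A))
    (h : ∀ a, v (algebraMap A (FractionRing A) a) = 0) : v = 0 :=
  Derivation.ext fun x => by
    obtain ⟨a, b, -, rfl⟩ := IsFractionRing.div_surjective A x
    rw [Derivation.leibniz_div, h, h]; simp

/-- The hypotheses of `vol` for the extended Hamiltonian derivations. -/
theorem vol' (p : ℕ) [Fact p.Prime] [CharP k p]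
    [FiniteDimensional (FractionRing A) (Derivation k (FractionRing A) (FractionRing A))]
    {br : A →ₗ[k] A →ₗ[k] A} (hP : IsPoisson br)
    (H : A → Derivation k (FractionRing A) (FractionRing A))
    (hH : ∀ g a, H g (algebraMap A (FractionRing A) a) = algebraMap A (FractionRing A) (br g a)) :
    ∃ (m : ℕ) (u : Fin m → Derivation k (FractionRing A) (FractionRing A)),
      LinearIndependent (FractionRing A) u ∧ span (FractionRing A) (Set.range u) = ⊤ ∧
      ∃ s ≠ 0, ∀ g, ∃ c : Matrix (Fin m) (Fin m) (FractionRing A),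
        (∀ i, ⁅H g, u i⁆ = ∑ j, c i j • u j) ∧ H g s = -c.trace * s := by
  have sk : ∀ a b, br a b = -br b a := fun a b => (LinearMap.IsAlt.neg hP.alt b a).symm
  exact vol p (algebraMap A (FractionRing A)) (fun a b => br a b) H
    (fun a b => by rw [hH, hH, sk, map_neg]) (fun a => by rw [hH, hP.alt, map_zero])
    (fun a b => sub_eq_zero.1 (ext_frac _ fun c => by
      have := congrArg (algebraMap A (FractionRing A)) (hP.jacobi a b c)
      rw [sk c a, sk c] at this
      simp only [Derivation.sub_apply, Derivation.commutator_apply, hH, map_add, map_neg,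
        map_zero] at this ⊢
      linear_combination this)) (fun a b => (hH a b).symm) ext_frac

theorem smul_lie' (a : FractionRing A)
    (v w : Derivation k (FractionRing A) (FractionRing A)) :
    ⁅v, a • w⁆ = a • ⁅v, w⁆ + v a • w := by
  ext x
  simp only [Derivation.commutator_apply, Derivation.add_apply, Derivation.smul_apply,
    Derivation.leibniz, smul_eq_mul]
  ring

theorem lie_sum' {n : ℕ} (v : Derivation k (FractionRing A) (FractionRing A))
    (f : Fin n → Derivation k (FractionRing A) (FractionRing A)) :
    ⁅v, ∑ i, f i⁆ = ∑ i, ⁅v, f i⁆ := by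
  ext x
  rw [sap, Derivation.commutator_apply, sap, map_sum, sap, ← Finset.sum_sub_distrib]
  exact Finset.sum_congr rfl fun i _ => by rw [Derivation.commutator_apply]

/-- **Rational unimodularity.** -/
theorem unimodular (p : ℕ) [Fact p.Prime] [CharP k p]
    [FiniteDimensional (FractionRing A) (Derivation k (FractionRing A) (FractionRing A))]
    {br : A →ₗ[k] A →ₗ[k] A} (hP : IsPoisson br) :
    ∃ (m : ℕ) (u : Basis (Fin m) (FractionRing A)
        (Derivation k (FractionRing A) (FractionRing A))),
      ∀ (g : A) (H : Derivation k (FractionRing A) (FractionRing A)),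
        (∀ a, H (algebraMap A _ a) = algebraMap A _ (br g a)) →
        ∑ i, u.repr ⁅H, u i⁆ i = 0 := by
  choose E hE using fun d : Derivation k A A => extend d
  obtain ⟨m, u, u1, u2, s, s0, s1⟩ := vol' p hP (fun g => E (ham hP g)) (fun g a => hE _ a)
  rcases m with _ | m
  · exact ⟨0, Basis.mk u1 u2.ge, fun g H _ => by simp⟩
  let b := Basis.mk u1 u2.ge
  let w : Fin (m + 1) → (FractionRing A)ˣ := fun i => if i = 0 then Units.mk0 s s0 else 1
  refine ⟨m + 1, b.unitsSMul w, fun g H hH => ?_⟩
  have hHg : H = E (ham hP g) := sub_eq_zero.1 (ext_frac _ fun a => by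
    rw [Derivation.sub_apply, hH, hE, sub_eq_zero]; rfl)
  obtain ⟨c, c1, c2⟩ := s1 g
  have hb : ∀ i, b i = u i := fun i => by simp [b]
  have key : ∀ i, (b.unitsSMul w).repr ⁅H, (b.unitsSMul w) i⁆ i
      = c i i + (if i = 0 then s⁻¹ * H s else 0) := by
    intro i
    have e1 : ⁅H, (b.unitsSMul w) i⁆ = (w i : FractionRing A) • ⁅H, u i⁆
        + (if i = 0 then H s else 0) • u i := by
      rw [Basis.unitsSMul_apply, hb, Units.smul_def, smul_lie']
      congr 2
      by_cases hi : i = 0
      · simp [w, hi]
      · simp [w, hi]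
    have e2 : b.repr ⁅H, u i⁆ i = c i i := by
      rw [hHg, c1]
      simp only [← hb, map_sum, map_smul, Basis.repr_self, Finsupp.coe_finsetSum,
        Finset.sum_apply, Finsupp.smul_apply, smul_eq_mul, Finsupp.single_apply]
      simp
    rw [e1, Basis.repr_unitsSMul, map_add, map_smul, map_smul, Finsupp.add_apply,
      Finsupp.smul_apply, Finsupp.smul_apply, e2, ← hb, Basis.repr_self, Finsupp.single_eq_same,
      Units.smul_def]
    by_cases hi : i = 0
    · subst hi
      simp only [w, if_true, Units.val_mk0, Units.val_inv_eq_inv_val, smul_eq_mul, mul_one]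
      field_simp
    · simp [w, hi]
  rw [Finset.sum_congr rfl fun i _ => key i, Finset.sum_add_distrib]
  have : ∑ i, c i i = c.trace := rfl
  rw [this, Finset.sum_ite_eq' Finset.univ 0, if_pos (Finset.mem_univ _), hHg, c2]
  field_simp
  ring

/-- Every derivation of the field of fractions is a linear combination of the derivations `D_i`
of `A`. -/
def Spans {n : ℕ} (D : Fin n → Derivation k A A) : Prop :=
  ∀ v : Derivation k (FractionRing A) (FractionRing A), ∃ c : Fin n → FractionRing A,
    ∀ a, v (algebraMap A _ a) = ∑ j, c j * algebraMap A _ (D j a)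

/-- the extended basis -/
theorem basis_ext {n : ℕ} (D : Basis (Fin n) A (Derivation k A A)) (hD : Spans D)
    (E : Derivation k A A → Derivation k (FractionRing A) (FractionRing A))
    (hE : ∀ d a, E d (algebraMap A _ a) = algebraMap A _ (d a)) :
    ∃ B : Basis (Fin n) (FractionRing A) (Derivation k (FractionRing A) (FractionRing A)),
      ∀ i, B i = E (D i) := by
  have sum_app : ∀ (c : Fin n → FractionRing A) (x : FractionRing A),
      (∑ i, c i • E (D i)) x = ∑ i, c i * E (D i) x := fun c x => by
    rw [sap]; simp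
  have hli : LinearIndependent (FractionRing A) fun i => E (D i) := by
    rw [Fintype.linearIndependent_iff]
    intro c hc i
    obtain ⟨⟨b, hb⟩, hb'⟩ := IsLocalization.exist_integer_multiples_of_finite
      (nonZeroDivisors A) c
    choose a ha using hb'
    have h1 : ∑ i, a i • D i = 0 := Derivation.ext fun x => by
      apply IsFractionRing.injective A (FractionRing A)
      rw [sap_A, map_sum, Derivation.zero_apply, map_zero]
      have h2 := congrArg (fun v : Derivation k (FractionRing A) (FractionRing A) =>
        algebraMap A (FractionRing A) b * v (algebraMap A _ x)) hc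
      simp only [sum_app, Derivation.zero_apply, mul_zero, Finset.mul_sum] at h2
      rw [← h2]
      refine Finset.sum_congr rfl fun j _ => ?_
      rw [Derivation.smul_apply, smul_eq_mul, map_mul, ha, hE, Algebra.smul_def, mul_assoc]
    have h3 := (Fintype.linearIndependent_iff.1 D.linearIndependent) a h1 i
    have h4 := ha i
    rw [h3, map_zero, Algebra.smul_def] at h4
    exact (mul_eq_zero.1 h4.symm).resolve_left
      ((map_ne_zero_iff _ (IsFractionRing.injective A _)).2 (nonZeroDivisors.ne_zero hb))
  have hsp : ⊤ ≤ span (FractionRing A) (Set.range fun i => E (D i)) := by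
    intro v _
    obtain ⟨c, hc⟩ := hD v
    have : v = ∑ i, c i • E (D i) := sub_eq_zero.1 (ext_frac _ fun a => by
      rw [Derivation.sub_apply, hc, sum_app, sub_eq_zero]
      exact Finset.sum_congr rfl fun j _ => by rw [hE])
    rw [this]
    exact sum_mem fun i _ => smul_mem _ _ (subset_span ⟨i, rfl⟩)
  exact ⟨Basis.mk hli hsp, fun i => by simp⟩

theorem hE_ham {br : A →ₗ[k] A →ₗ[k] A} (hP : IsPoisson br)
    (E : Derivation k A A → Derivation k (FractionRing A) (FractionRing A))
    (hE : ∀ d a, E d (algebraMap A _ a) = algebraMap A _ (d a)) (g a : A) :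
    E (ham hP g) (algebraMap A _ a) = algebraMap A _ (br g a) := hE _ _

/-- **The modular derivation is log-ozone.** -/
theorem logOzone (p : ℕ) [Fact p.Prime] [CharP k p] {n : ℕ}
    (D : Basis (Fin n) A (Derivation k A A)) (hD : Spans D)
    {br : A →ₗ[k] A →ₗ[k] A} (hP : IsPoisson br) :
    ∃ Ω : A, Ω ≠ 0 ∧ ∀ a, br a Ω = modular hP D a * Ω := by
  choose E hE using fun d : Derivation k A A => extend d
  obtain ⟨B, hB⟩ := basis_ext D hD E hE
  have : FiniteDimensional (FractionRing A)
    (Derivation k (FractionRing A) (FractionRing A)) := Module.Finite.of_basis B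
  obtain ⟨m, u, u1, u2, s, s0, s1⟩ := vol' p hP (fun g => E (ham hP g)) (fun g a => hE _ a)
  obtain rfl : m = n := by
    have h1 := finrank_eq_card_basis (Basis.mk u1 u2.ge)
    have h2 := finrank_eq_card_basis B
    rw [h1] at h2
    simpa using h2
  let ι := algebraMap A (FractionRing A)
  have ιinj : Function.Injective ι := IsFractionRing.injective A _
  let e : Derivation k (FractionRing A) (FractionRing A) →ₗ[FractionRing A]
    (Fin m → FractionRing A) := B.equivFun
  have he : LinearMap.ker e = ⊥ := LinearEquiv.ker _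
  let U : Matrix (Fin m) (Fin m) (FractionRing A) := of fun i => e (u i)
  have hU : IsUnit U.det := (isUnit_iff_isUnit_det _).1
    (linearIndependent_rows_iff_isUnit.1 (u1.map' e he))
  have hu : ∀ i, u i = ∑ j, U i j • B j := fun i => (B.sum_equivFun (u i)).symm
  let T : A → Matrix (Fin m) (Fin m) A := fun g => of fun j l => D.repr ⁅ham hP g, D j⁆ l
  have hT : ∀ g j, ⁅E (ham hP g), B j⁆ = ∑ l, ι (T g j l) • B l := fun g j => by
    refine sub_eq_zero.1 (ext_frac _ fun a => ?_)
    have h1 : ⁅ham hP g, D j⁆ a = ∑ l, T g j l * D l a := by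
      conv_lhs => rw [← D.sum_repr ⁅ham hP g, D j⁆]
      rw [sap_A]
      rfl
    rw [Derivation.sub_apply, sub_eq_zero, hB, Derivation.commutator_apply, hE, hE, hE, hE,
      ← map_sub, ← Derivation.commutator_apply, h1, map_sum, sap]
    refine Finset.sum_congr rfl fun l _ => ?_
    rw [map_mul, Derivation.smul_apply, hB, hE, smul_eq_mul]
  have key : ∀ g, E (ham hP g) (U.det * s) = -ι (modular hP D g) * (U.det * s) := fun g => by
    obtain ⟨c, c1, c2⟩ := s1 g
    have hm : U.map (E (ham hP g)) = c * U - U * (T g).map ι := by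
      ext i l
      have h1 := congrArg (fun v => e v l) (c1 i)
      have h2 : e ⁅E (ham hP g), u i⁆ l = ∑ j, U i j * ι (T g j l) + E (ham hP g) (U i l) := by
        have h3 : ⁅E (ham hP g), u i⁆
            = ∑ j, (U i j • (∑ l, ι (T g j l) • B l) + E (ham hP g) (U i j) • B j) := by
          rw [hu i, lie_sum']
          exact Finset.sum_congr rfl fun j _ => by rw [smul_lie', hT]
        rw [h3, Finset.sum_add_distrib, map_add, map_sum, map_sum, Pi.add_apply, Finset.sum_apply,
          Finset.sum_apply]
        congr 1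
        · refine Finset.sum_congr rfl fun j _ => ?_
          rw [map_smul, Pi.smul_apply, smul_eq_mul, map_sum, Finset.sum_apply]
          congr 1
          simp [e, Finsupp.single_apply]
        · simp [e, Finsupp.single_apply]
      have h4 : e (∑ j, c i j • u j) l = ∑ j, c i j * U j l := by
        rw [map_sum, Finset.sum_apply]
        exact Finset.sum_congr rfl fun j _ => by rw [map_smul]; rfl
      simp only [h2, h4] at h1
      simp only [map_apply, Matrix.sub_apply, mul_apply, ← h1]
      ring
    have h5 := ddet (E (ham hP g)) U (c - U * (T g).map ι * U⁻¹) (by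
      rw [hm, sub_mul, nonsing_inv_mul_cancel_right _ _ hU])
    have h6 : ((T g).map ι).trace = ι (modular hP D g) := by
      simp only [Matrix.trace, diag_apply, map_apply, modular, map_sum, T, of_apply]
    rw [trace_sub, trace_mul_comm, nonsing_inv_mul_cancel_left _ _ hU, h6] at h5
    rw [Derivation.leibniz, h5, c2]
    simp only [smul_eq_mul]
    ring
  obtain ⟨a, b, hb, hab⟩ := IsFractionRing.div_surjective A (U.det * s)
  have hω : U.det * s ≠ 0 := mul_ne_zero hU.ne_zero s0
  have hb0 : b ≠ 0 := nonZeroDivisors.ne_zero hb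
  have hb1 : ι b ≠ 0 := (map_ne_zero_iff ι ιinj).2 hb0
  have ha1 : ι a ≠ 0 := fun h => hω (by
    rw [← hab, show algebraMap A (FractionRing A) a = 0 from h, zero_div])
  have ha0 : a ≠ 0 := fun h => ha1 (by rw [h, map_zero])
  have hp : p ≠ 0 := (Fact.out : p.Prime).ne_zero
  have : CharP (FractionRing A) p := charP_of_injective_algebraMap
    (algebraMap k (FractionRing A)).injective p
  refine ⟨b * a ^ (p - 1), mul_ne_zero hb0 (pow_ne_zero _ ha0), fun g => ιinj ?_⟩
  have h7 : ι (b * a ^ (p - 1)) = ι a ^ p * (U.det * s)⁻¹ := by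
    rw [← hab, map_mul, map_pow]
    change _ = ι a ^ p * (ι a / ι b)⁻¹
    obtain ⟨q, rfl⟩ : ∃ q, p = q + 1 := ⟨p - 1, by omega⟩
    rw [Nat.add_sub_cancel, pow_succ]
    field_simp
  have h8 : E (ham hP g) (ι (b * a ^ (p - 1)))
      = ι (modular hP D g) * ι (b * a ^ (p - 1)) := by
    rw [h7, Derivation.leibniz, Derivation.leibniz_inv, key, Derivation.leibniz_pow]
    simp only [smul_eq_mul, nsmul_eq_mul, CharP.cast_eq_zero, zero_mul, mul_zero, add_zero]
    field_simp
  rw [map_mul ι (modular hP D g)]
  exact (hE_ham hP E hE g _).symm.trans h8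

/-- If `A` is essentially of finite type over `k`, then `Spans D` holds for every basis `D`. -/
theorem spans_of_essFiniteType [Algebra.EssFiniteType k A] {n : ℕ}
    (D : Basis (Fin n) A (Derivation k A A)) : Spans D := by
  intro v
  let ι := algebraMap A (FractionRing A)
  have ιinj : Function.Injective ι := IsFractionRing.injective A _
  obtain ⟨σ, hσ⟩ := (Algebra.essFiniteType_iff k A).1 ‹_›
  classical
  -- a common denominator
  obtain ⟨⟨d, hd⟩, hd'⟩ := IsLocalization.exist_integer_multiples_of_finset
    (nonZeroDivisors A) (σ.image fun b => v (ι b))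
  have hd0 : ι d ≠ 0 := (map_ne_zero_iff ι ιinj).2 (nonZeroDivisors.ne_zero hd)
  have h1 : ∀ x ∈ Algebra.adjoin k (σ : Set A), ∃ y, ι y = ι d * v (ι x) := by
    intro x hx
    induction hx using Algebra.adjoin_induction with
    | mem x hx =>
      obtain ⟨y, hy⟩ := hd' (v (ι x)) (Finset.mem_image_of_mem _ hx)
      exact ⟨y, by rw [show ι y = _ from hy, Algebra.smul_def]⟩
    | algebraMap r =>
      refine ⟨0, ?_⟩
      have : ι (algebraMap k A r) = algebraMap k (FractionRing A) r :=
        (IsScalarTower.algebraMap_apply k A _ r).symm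
      rw [this, v.map_algebraMap, map_zero, mul_zero]
    | add x y _ _ h1 h2 =>
      obtain ⟨a, ha⟩ := h1
      obtain ⟨b, hb⟩ := h2
      exact ⟨a + b, by rw [map_add, ha, hb, map_add, map_add, mul_add]⟩
    | mul x y _ _ h1 h2 =>
      obtain ⟨a, ha⟩ := h1
      obtain ⟨b, hb⟩ := h2
      refine ⟨x * b + y * a, ?_⟩
      rw [map_add, map_mul, map_mul, ha, hb, map_mul, Derivation.leibniz]
      simp only [smul_eq_mul]
      ring
  have h2 : ∀ x, ∃ y, ι y = ι d * v (ι x) := by
    intro x
    obtain ⟨t, ht, hu, hs⟩ := hσ x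
    obtain ⟨a, ha⟩ := h1 _ hs
    obtain ⟨b, hb⟩ := h1 _ ht
    obtain ⟨c, hc⟩ := hu.exists_right_inv
    refine ⟨c * (a - x * b), ?_⟩
    have h3 : ι t * ι c = 1 := by rw [← map_mul, hc, map_one]
    rw [map_mul ι x t, Derivation.leibniz] at ha
    simp only [smul_eq_mul] at ha
    rw [map_mul, map_sub, map_mul, ha, hb]
    linear_combination (ι d * v (ι x)) * h3
  choose w hw using h2
  let W : Derivation k A A := Derivation.mk'
    { toFun := w
      map_add' := fun x y => ιinj (by rw [hw, map_add, map_add, map_add, hw, hw, mul_add])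
      map_smul' := fun r x => ιinj (by
        have h4 : ∀ z : A, ι (r • z) = r • ι z := fun z => by
          rw [Algebra.smul_def, map_mul, Algebra.smul_def,
            IsScalarTower.algebraMap_apply k A (FractionRing A) r]
        rw [RingHom.id_apply, hw, h4, h4, hw, v.map_smul, mul_smul_comm]) }
    fun x y => ιinj (by
      change ι (w (x * y)) = ι (x * w y + y * w x)
      rw [hw, map_add, map_mul ι x y, map_mul ι x (w y), map_mul ι y (w x), hw, hw,
        Derivation.leibniz]
      simp only [smul_eq_mul]
      ring)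
  refine ⟨fun j => ι (D.repr W j) / ι d, fun a => ?_⟩
  have h5 : W a = ∑ j, D.repr W j * D j a := by
    conv_lhs => rw [← D.sum_repr W]
    rw [sap_A]
    rfl
  have h6 : ι (W a) = ι d * v (ι a) := hw a
  change v (ι a) = ∑ j, ι (D.repr W j) / ι d * ι (D j a)
  have h7 : v (ι a) = ι (W a) / ι d := by rw [h6]; field_simp
  rw [h7, h5, map_sum, Finset.sum_div]
  exact Finset.sum_congr rfl fun j _ => by rw [map_mul]; ring

/-- In coordinates the modular derivation is `∑ j, D_j {x_j, g}`. -/
theorem modular_eq {n : ℕ} (D : Basis (Fin n) A (Derivation k A A)) (x : Fin n → A)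
    (hx : ∀ i j, D i (x j) = if i = j then 1 else 0)
    {br : A →ₗ[k] A →ₗ[k] A} (hP : IsPoisson br) (g : A) :
    modular hP D g = ∑ j, D j (br (x j) g) := by
  refine Finset.sum_congr rfl fun i _ => ?_
  have h1 : ∀ v : Derivation k A A, D.repr v i = v (x i) := fun v => by
    conv_rhs => rw [← D.sum_repr v]
    rw [sap_A]
    simp [hx]
  have h2 : ham hP g (x i) = - br (x i) g := (LinearMap.IsAlt.neg hP.alt (x i) g).symm
  rw [h1, Derivation.commutator_apply, hx, if_pos rfl, Derivation.map_one_eq_zero, h2, map_neg]
  ring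

end

/-- `a ↦ ∑ j, D_j {x_j, a}` -/
def coordModular {k : Type u} {A : Type v} [Field k] [CommRing A] [Algebra k A] {n : ℕ}
    (D : Fin n → Derivation k A A) (x : Fin n → A) (br : A →ₗ[k] A →ₗ[k] A) (a : A) : A :=
  ∑ j, D j (br (x j) a)

/-- The modular derivation of every Poisson structure on `A` is log-ozone, with one `Ω`. -/
def ModularIsLogOzone (k : Type u) (A : Type v) [Field k] [CommRing A] [IsDomain A]
    [Algebra k A] : Prop :=
  ∀ (n : ℕ) (D : Basis (Fin n) A (Derivation k A A)), Algebra.EssFiniteType k A ∨ Spans D →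
    ∀ (br : A →ₗ[k] A →ₗ[k] A) (hP : IsPoisson br),
      (∃ Ω, IsLogOzone br (modular hP D) Ω) ∧ modular hP D ∈ loz br

/-- The modular derivation in coordinates. -/
def ModularInCoordinates (k : Type u) (A : Type v) [Field k] [CommRing A]
    [Algebra k A] : Prop :=
  ∀ (n : ℕ) (D : Basis (Fin n) A (Derivation k A A)) (x : Fin n → A),
    (∀ i j, D i (x j) = if i = j then 1 else 0) →
    ∀ (br : A →ₗ[k] A →ₗ[k] A) (hP : IsPoisson br) (a : A),
      modular hP D a = coordModular D x br a

/-- The partial derivatives of `k[x_1, ..., x_n]`. -/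
noncomputable def partials (k : Type u) [Field k] (n : ℕ) :
    Fin n → Derivation k (MvPolynomial (Fin n) k) (MvPolynomial (Fin n) k) :=
  fun j => MvPolynomial.pderiv j

/-- Q1: for every Poisson bracket on `k[x_1, ..., x_n]` the derivation `a ↦ ∑ j, ∂_j {x_j, a}` is
`δ_Ω` for one `Ω` and lies in the log-ozone group. -/
def PolynomialCase (k : Type u) [Field k] (n : ℕ) : Prop :=
  ∀ br : MvPolynomial (Fin n) k →ₗ[k] MvPolynomial (Fin n) k →ₗ[k] MvPolynomial (Fin n) k,
    IsPoisson br →
    (∃ Ω, IsLogOzone br (coordModular (partials k n) MvPolynomial.X br) Ω) ∧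
      coordModular (partials k n) MvPolynomial.X br ∈ loz br

/-- the derivations of the field of fractions -/
abbrev DerK (k : Type u) (A : Type v) [Field k] [CommRing A] [IsDomain A] [Algebra k A] :
    Type v := Derivation k (FractionRing A) (FractionRing A)

/-- `H` is the extension of the Hamiltonian derivation `{g, -}` to the field of fractions. -/
def IsHam {k : Type u} {A : Type v} [Field k] [CommRing A] [IsDomain A] [Algebra k A]
    (br : A →ₗ[k] A →ₗ[k] A) (g : A) (H : DerK k A) : Prop :=
  ∀ a, H (algebraMap A _ a) = algebraMap A _ (br g a)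

/-- the trace of `[H, -]` on the basis `u` -/
noncomputable def traceOn {k : Type u} {A : Type v} [Field k] [CommRing A] [IsDomain A]
    [Algebra k A] {m : ℕ} (u : Basis (Fin m) (FractionRing A) (DerK k A)) (H : DerK k A) :
    FractionRing A := ∑ i, u.repr ⁅H, u i⁆ i

/-- Every Poisson structure on `A` is rationally unimodular. -/
def RationallyUnimodular (k : Type u) (A : Type v) [Field k] [CommRing A] [IsDomain A]
    [Algebra k A] : Prop :=
  ∀ (br : A →ₗ[k] A →ₗ[k] A), IsPoisson br →
    ∃ (m : ℕ) (u : Basis (Fin m) (FractionRing A) (DerK k A)),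
      ∀ (g : A) (H : DerK k A), IsHam br g H → traceOn u H = 0

/-- the partial derivatives form a basis of the derivations of a polynomial ring -/
theorem pderivBasis (k : Type u) [Field k] (n : ℕ) :
    ∃ D : Basis (Fin n) (MvPolynomial (Fin n) k)
      (Derivation k (MvPolynomial (Fin n) k) (MvPolynomial (Fin n) k)),
      ∀ i, D i = MvPolynomial.pderiv i := by
  have happ : ∀ (c : Fin n → MvPolynomial (Fin n) k) (j : Fin n),
      (∑ i, c i • MvPolynomial.pderiv (R := k) i) (MvPolynomial.X j) = c j := fun c j => by
    rw [sap_A]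
    simp [MvPolynomial.pderiv_X, Pi.single_apply]
  refine ⟨Basis.mk (v := fun i => MvPolynomial.pderiv i) ?_ ?_,
    fun i => Basis.mk_apply _ _ i⟩
  · rw [Fintype.linearIndependent_iff]
    intro c hc j
    have := congrArg (fun v : Derivation k (MvPolynomial (Fin n) k) (MvPolynomial (Fin n) k) =>
      v (MvPolynomial.X j)) hc
    simpa only [happ, Derivation.zero_apply] using this
  · intro v _
    have : v = ∑ i, v (MvPolynomial.X i) • MvPolynomial.pderiv i :=
      MvPolynomial.derivation_ext fun j => by rw [happ]
    rw [this]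
    exact sum_mem fun i _ => smul_mem _ _ (subset_span ⟨i, rfl⟩)

theorem main {k : Type u} [Field k] (p : ℕ) [Fact p.Prime] [CharP k p] {A : Type v} [CommRing A]
    [IsDomain A] [Algebra k A] {n : ℕ} (D : Basis (Fin n) A (Derivation k A A))
    (h : Algebra.EssFiniteType k A ∨ Spans D) {br : A →ₗ[k] A →ₗ[k] A} (hP : IsPoisson br) :
    (∃ Ω, IsLogOzone br (modular hP D) Ω) ∧ modular hP D ∈ loz br := by
  have hS : Spans D := h.elim (fun _ => spans_of_essFiniteType D) id
  obtain ⟨Ω, h0, h1⟩ := logOzone p D hS hP
  have h2 : IsLogOzone br (modular hP D) Ω := ⟨h0, fun a => ⟨modular hP D a, by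
    rw [h1, mul_comm]⟩, h1⟩
  exact ⟨⟨Ω, h2⟩, AddSubgroup.subset_closure ⟨Ω, h2⟩⟩

/-- **In characteristic `p > 0` every integral Poisson algebra is rationally unimodular, and the
modular derivation is log-ozone.** Let `k` be a field of characteristic `p > 0` and `A` a
commutative `k`-algebra which is a domain, with a Poisson bracket.

(1) Let `Der_k(A)` be a free `A`-module with a finite basis `D`, and let `A` be essentially of
finite type over `k` or, more generally, let every `k`-derivation of the field of fractions of `A`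
be a linear combination of the `D_i`. Then the modular derivation of `A` with respect to `D` is
`δ_Ω` for one Poisson normal element `Ω` of `A`; in particular it lies in the log-ozone group.

(2) If there are elements `x_j` with `D_i(x_j) = δ_{ij}`, then the modular derivation of (1) is
`a ↦ ∑ j, D_j {x_j, a}`.

(3) In particular, for `A = k[x_1, ..., x_n]` the modular derivation `a ↦ ∑ j, ∂_j {x_j, a}` is
`δ_Ω` for one `Ω` and lies in the log-ozone group.

(4) For all `A` such that the `k`-derivations of the field of fractions `K` of `A` form a finite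
dimensional `K`-space (whether `Der_k(A)` is free or not), this space has a basis `u` such that for
every Hamiltonian derivation `H = {g, -}`, `g ∈ A`, extended to `K`, the matrix `c` with
`[H, u_i] = ∑ j, c_{ij} u_j` has trace zero, that is, the nonzero rational volume form dual to `u`
is invariant under all Hamiltonian derivations. -/
theorem result (k : Type u) [Field k] (p : ℕ) [Fact p.Prime] [CharP k p] :
    (∀ (A : Type v) [CommRing A] [IsDomain A] [Algebra k A], ModularIsLogOzone k A) ∧
    (∀ (A : Type v) [CommRing A] [IsDomain A] [Algebra k A], ModularInCoordinates k A) ∧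
    (∀ n : ℕ, PolynomialCase k n) ∧
    (∀ (A : Type v) [CommRing A] [IsDomain A] [Algebra k A],
      Module.Finite (FractionRing A) (DerK k A) → RationallyUnimodular k A) := by
  refine ⟨fun A _ _ _ n D h br hP => main p D h hP,
    fun A _ _ _ n D x hx br hP a => modular_eq D x hx hP a,
    fun n br hP => ?_, fun A _ _ _ hf br hP => unimodular p hP⟩
  obtain ⟨D, hD⟩ := pderivBasis k n
  have h1 := main p D (Or.inl inferInstance) hP
  have h2 : modular hP D = coordModular (partials k n) MvPolynomial.X br := by
    funext a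
    change _ = ∑ j, MvPolynomial.pderiv j (br (MvPolynomial.X j) a)
    rw [modular_eq D MvPolynomial.X (fun i j => by
      rw [hD, MvPolynomial.pderiv_X, Pi.single_apply]; simp [eq_comm]) hP a]
    simp only [hD]
  rwa [h2] at h1

end Pool.Agent.Results.MP_c5669f_al.PoissonDomains
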